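import Pool.Agent.K7.H24.PD.Stm

set_option autoImplicit false

namespace Pool.Agent.K7.H24.PD

open Finset

/-- the weight of an element of `{1} ∪ primes` -/
noncomputable def w (s K K' a : ℕ) : ℝ := if a = 1 then 1 else th s K K' a

noncomputable def AA (s K' : ℕ) : Finset ℕ := insert 1 ((Icc K' s).filter Nat.Prime)

lemma c_nonneg {K K' : ℕ} (hK : 2 ≤ K) (hKK : K < K') :
    0 ≤ 1 - Real.log K / Real.log K' := by
  have h1 : (1 : ℝ) < K' := by exact_mod_cast (by omega : 1 < K')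
  have h2 : 0 < Real.log K' := Real.log_pos h1
  rw [sub_nonneg, div_le_one h2]
  exact Real.log_le_log (by positivity) (by exact_mod_cast hKK.le)

lemma th_nonneg {s K K' a : ℕ} (hs : 2 ≤ s) (hK : 2 ≤ K) (hKK : K < K') (ha : 1 ≤ a) :
    0 ≤ th s K K' a := by
  unfold th
  have h1 : 0 ≤ Real.log a := Real.log_nonneg (by exact_mod_cast ha)
  have h2 : 0 ≤ Real.log s := Real.log_nonneg (by exact_mod_cast (by omega : 1 ≤ s))
  exact mul_nonneg (c_nonneg hK hKK) (by positivity)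

lemma w_nonneg {s K K' a : ℕ} (hs : 2 ≤ s) (hK : 2 ≤ K) (hKK : K < K') (ha : 1 ≤ a) :
    0 ≤ w s K K' a := by
  unfold w
  split_ifs
  · norm_num
  · exact th_nonneg hs hK hKK ha

lemma key (s K K' n r t : ℕ) (hs : 2 ≤ s) (hK : 2 ≤ K) (hKK : K < K') (hr : 0 < r) (ht : 0 < t)
    (hm : t * r ≤ n) (B : Finset ℕ) (hB : B ⊆ AA s K') (hd : ∀ a ∈ B, a ∣ t)
    (h1 : ∀ a ∈ B, r * (s * a) ≤ n) (h2 : ∀ a ∈ B, n < r * (K * (s * a))) :
    ∑ a ∈ B, w s K K' a ≤ 1 := by
  have hpr : ∀ a ∈ B, a ≠ 1 → K' ≤ a ∧ a ≤ s ∧ a.Prime := by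
    intro a ha ha1
    have := hB ha
    unfold AA at this
    rw [mem_insert, mem_filter, mem_Icc] at this
    rcases this with h | h
    · exact absurd h ha1
    · exact ⟨h.1.1, h.1.2, h.2⟩
  by_cases h : 1 ∈ B
  · have hall : ∀ a ∈ B, a = 1 := by
      intro a ha
      by_contra hne
      obtain ⟨g1, g2, g3⟩ := hpr a ha hne
      have e1 := h1 a ha
      have e2 := h2 1 h
      have e3 : r * (s * a) < r * (K * (s * 1)) := lt_of_le_of_lt e1 e2
      have e4 : s * a < K * (s * 1) := lt_of_mul_lt_mul_left e3 (Nat.zero_le _)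
      have e5 : s * a < s * K := by linarith [mul_comm K s, mul_one s]
      have e6 : a < K := lt_of_mul_lt_mul_left e5 (Nat.zero_le _)
      omega
    have hsub : B ⊆ {1} := fun a ha => mem_singleton.2 (hall a ha)
    calc ∑ a ∈ B, w s K K' a ≤ ∑ a ∈ ({1} : Finset ℕ), w s K K' a :=
          sum_le_sum_of_subset_of_nonneg hsub (fun a ha _ => by
            rw [mem_singleton] at ha
            subst ha
            exact w_nonneg hs hK hKK le_rfl)
      _ = 1 := by simp [w]
  · rcases B.eq_empty_or_nonempty with hE | ⟨b, hb⟩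
    · rw [hE]
      simp
    have hpr' : ∀ a ∈ B, K' ≤ a ∧ a ≤ s ∧ a.Prime := fun a ha =>
      hpr a ha (fun he => h (he ▸ ha))
    have hsR : (0 : ℝ) < s := by exact_mod_cast (by omega : 0 < s)
    have hrR : (0 : ℝ) < r := by exact_mod_cast hr
    have hKR : (0 : ℝ) < K := by exact_mod_cast (by omega : 0 < K)
    set z : ℝ := n / (s * r) with hz
    have hz1 : ∀ a ∈ B, (a : ℝ) ≤ z := by
      intro a ha
      rw [hz, le_div_iff₀ (by positivity)]
      have := h1 a ha
      have h3 : ((r * (s * a) : ℕ) : ℝ) ≤ n := by exact_mod_cast this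
      push_cast at h3
      nlinarith
    have hz2 : ∀ a ∈ B, z < K * a := by
      intro a ha
      rw [hz, div_lt_iff₀ (by positivity)]
      have := h2 a ha
      have h3 : (n : ℝ) < ((r * (K * (s * a)) : ℕ) : ℝ) := by exact_mod_cast this
      push_cast at h3
      nlinarith
    have hK' : (1 : ℝ) < K' := by exact_mod_cast (by omega : 1 < K')
    have hKK1 : (K' : ℝ) ≤ z := le_trans (by exact_mod_cast (hpr' b hb).1) (hz1 b hb)
    have hzpos : 0 < z := by linarith
    have hlz : 0 < Real.log z := Real.log_pos (by linarith)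
    have hls : 0 < Real.log s := Real.log_pos (by exact_mod_cast (by omega : 1 < s))
    have hlK' : 0 < Real.log K' := Real.log_pos hK'
    have hlKz : Real.log K' ≤ Real.log z := Real.log_le_log (by linarith) hKK1
    have hlK : 0 < Real.log K := Real.log_pos (by exact_mod_cast (by omega : 1 < K))
    have hc0 := c_nonneg hK hKK
    set c : ℝ := 1 - Real.log K / Real.log K' with hc
    -- each weight
    have hw : ∀ a ∈ B, w s K K' a ≤ c * (Real.log z / (Real.log s + Real.log z)) := by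
      intro a ha
      have ha1 : a ≠ 1 := fun he => h (he ▸ ha)
      have hap := (hpr' a ha).2.2
      unfold w th
      rw [if_neg ha1]
      apply mul_le_mul_of_nonneg_left _ hc0
      have hla : 0 ≤ Real.log a := Real.log_nonneg (by exact_mod_cast hap.one_lt.le)
      have hle : Real.log a ≤ Real.log z :=
        Real.log_le_log (by exact_mod_cast hap.pos) (hz1 a ha)
      rw [div_le_div_iff₀ (by positivity) (by positivity)]
      nlinarith
    have hsum : ∑ a ∈ B, w s K K' a ≤ B.card * (c * (Real.log z / (Real.log s + Real.log z))) := by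
      have := sum_le_card_nsmul B (fun a => w s K K' a) _ hw
      rwa [nsmul_eq_mul] at this
    -- the product
    have hprod : ∏ a ∈ B, a ≤ t := Nat.le_of_dvd ht
      (prod_primes_dvd t (fun a ha => (hpr' a ha).2.2.prime) hd)
    have hlog1 : (B.card : ℝ) * (Real.log z - Real.log K) ≤ ∑ a ∈ B, Real.log a := by
      have : ∀ a ∈ B, Real.log z - Real.log K ≤ Real.log (a : ℝ) := by
        intro a ha
        have hap := (hpr' a ha).2.2
        have ha0 : (0 : ℝ) < a := by exact_mod_cast hap.pos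
        have h3 : Real.log z ≤ Real.log (K * a) := Real.log_le_log hzpos (hz2 a ha).le
        rw [Real.log_mul hKR.ne' ha0.ne'] at h3
        linarith
      have h4 := card_nsmul_le_sum B (fun a => Real.log (a : ℝ)) _ this
      rwa [nsmul_eq_mul] at h4
    have hlog2 : ∑ a ∈ B, Real.log (a : ℝ) = Real.log ((∏ a ∈ B, a : ℕ) : ℝ) := by
      rw [Nat.cast_prod, Real.log_prod]
      intro a ha
      exact_mod_cast (hpr' a ha).2.2.ne_zero
    have hlog3 : Real.log ((∏ a ∈ B, a : ℕ) : ℝ) ≤ Real.log s + Real.log z := by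
      rw [← Real.log_mul hsR.ne' hzpos.ne']
      apply Real.log_le_log
      · exact_mod_cast prod_pos (fun a ha => (hpr' a ha).2.2.pos)
      · have h5 : ((∏ a ∈ B, a : ℕ) : ℝ) ≤ t := by exact_mod_cast hprod
        have h6 : (t : ℝ) * r ≤ n := by exact_mod_cast hm
        have h7 : (s : ℝ) * z = n / r := by
          rw [hz]
          field_simp
        rw [h7, le_div_iff₀ hrR]
        nlinarith
    have hcle : c * Real.log z ≤ Real.log z - Real.log K := by
      rw [hc, sub_mul, one_mul]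
      have : Real.log K ≤ Real.log K / Real.log K' * Real.log z := by
        rw [div_mul_eq_mul_div, le_div_iff₀ hlK']
        nlinarith
      linarith
    refine hsum.trans ?_
    have h8 : (B.card : ℝ) * (c * Real.log z) ≤ Real.log s + Real.log z := by
      calc (B.card : ℝ) * (c * Real.log z) ≤ B.card * (Real.log z - Real.log K) :=
            mul_le_mul_of_nonneg_left hcle (Nat.cast_nonneg _)
        _ ≤ _ := by linarith
    have h9 : (B.card : ℝ) * (c * (Real.log z / (Real.log s + Real.log z))) =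
        (B.card * (c * Real.log z)) / (Real.log s + Real.log z) := by ring
    rw [h9, div_le_one (by positivity)]
    exact h8

/-- the rough numbers of a window -/
noncomputable def XX (s K n a : ℕ) : Finset ℕ := by
  classical exact ((Icc 1 (n / (s * a))).filter (Rough s)).filter (fun r => ¬ r ≤ n / (K * (s * a)))

lemma card_XX (s K n a : ℕ) (hK : 1 ≤ K) :
    ((XX s K n a).card : ℝ) = (rho s (n / (s * a)) : ℝ) - rho s (n / (K * (s * a))) := by
  classical
  have hle : n / (K * (s * a)) ≤ n / (s * a) := by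
    rcases Nat.eq_zero_or_pos (s * a) with h0 | h0
    · simp [h0]
    · exact Nat.div_le_div_left (Nat.le_mul_of_pos_left _ (by omega)) h0
  have h := card_filter_add_card_filter_not (s := (Icc 1 (n / (s * a))).filter (Rough s))
    (fun r => r ≤ n / (K * (s * a)))
  have h1 : (((Icc 1 (n / (s * a))).filter (Rough s)).filter
      (fun r => r ≤ n / (K * (s * a)))) = (Icc 1 (n / (K * (s * a)))).filter (Rough s) := by
    ext r
    simp only [mem_filter, mem_Icc]
    constructor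
    · rintro ⟨⟨⟨g1, _⟩, g3⟩, g4⟩
      exact ⟨⟨g1, g4⟩, g3⟩
    · rintro ⟨⟨g1, g4⟩, g3⟩
      exact ⟨⟨⟨g1, g4.trans hle⟩, g3⟩, g4⟩
  rw [h1] at h
  unfold XX rho
  have h2 : (((Icc 1 (n / (K * (s * a)))).filter (Rough s)).card : ℝ) +
      ((((Icc 1 (n / (s * a))).filter (Rough s)).filter
        (fun r => ¬ r ≤ n / (K * (s * a)))).card : ℝ) =
      (((Icc 1 (n / (s * a))).filter (Rough s)).card : ℝ) := by exact_mod_cast h
  linarith

lemma rough_coprime {s r b : ℕ} (hr : Rough s r) (hb : 0 < b)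
    (hbs : ∀ p : ℕ, p.Prime → p ∣ b → p ≤ s) : Nat.Coprime r b := by
  apply Nat.Coprime.symm
  rw [Nat.coprime_comm]
  by_contra hcon
  obtain ⟨p, hp, h1, h2⟩ := Nat.Prime.not_coprime_iff_dvd.1 hcon
  have := hr p hp h1
  have := hbs p hp h2
  omega

theorem pack : StPack := by
  classical
  intro s n K K' hs hK hKK
  obtain ⟨S, hS, hmax⟩ := exists_mem_eq_sup
    ((Icc 1 n).powerset.filter
      (fun S => ∀ x : ℕ, 0 < x → ∃ j : ℕ, 1 ≤ j ∧ j ≤ s ∧ j * x ∉ S))
    ⟨∅, by
      rw [mem_filter]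
      exact ⟨empty_mem_powerset _, fun x _ => ⟨1, le_rfl, by omega, by simp⟩⟩⟩ Finset.card
  rw [mem_filter, mem_powerset] at hS
  obtain ⟨hSn, hfree⟩ := hS
  have hpm : pmax s n = S.card := by
    unfold pmax
    convert hmax
  set R := (Icc 1 n) \ S with hR
  have hRc : (R.card : ℝ) = n - S.card := by
    have := card_sdiff_add_card_eq_card hSn
    rw [Nat.card_Icc] at this
    have h2 : (((Icc 1 n) \ S).card : ℝ) + S.card = n := by
      have : ((Icc 1 n) \ S).card + S.card = n := by omega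
      exact_mod_cast this
    rw [hR]
    linarith
  -- the pairs
  set A := AA s K' with hA
  have hApos : ∀ a ∈ A, 1 ≤ a ∧ ∀ p : ℕ, p.Prime → p ∣ a → p ≤ s := by
    intro a ha
    rw [hA] at ha
    unfold AA at ha
    rw [mem_insert, mem_filter, mem_Icc] at ha
    rcases ha with rfl | ⟨⟨g1, g2⟩, g3⟩
    · refine ⟨le_rfl, fun p hp hpd => ?_⟩
      have := Nat.le_of_dvd one_pos hpd
      have := hp.two_le
      omega
    · refine ⟨g3.one_lt.le, fun p hp hpd => ?_⟩
      have := Nat.le_of_dvd g3.pos hpd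
      omega
  set P : Finset (ℕ × ℕ) := A.sigma (fun a => XX s K n a) |>.image (fun q => (q.1, q.2)) with hP
  have hmemP : ∀ q : ℕ × ℕ, q ∈ P ↔ q.1 ∈ A ∧ q.2 ∈ XX s K n q.1 := by
    intro q
    rw [hP, mem_image]
    constructor
    · rintro ⟨⟨a, r⟩, h, rfl⟩
      rw [mem_sigma] at h
      exact h
    · rintro ⟨h1, h2⟩
      exact ⟨⟨q.1, q.2⟩, mem_sigma.2 ⟨h1, h2⟩, rfl⟩
  have hXX : ∀ a r : ℕ, r ∈ XX s K n a ↔ (1 ≤ r ∧ r ≤ n / (s * a)) ∧ Rough s r ∧
      ¬ r ≤ n / (K * (s * a)) := by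
    intro a r
    unfold XX
    simp only [mem_filter, mem_Icc]
    tauto
  have hsumP : ∑ q ∈ P, w s K K' q.1 = ∑ a ∈ A, w s K K' a * (XX s K n a).card := by
    rw [hP, sum_image (by
      rintro ⟨a, r⟩ _ ⟨a', r'⟩ _ h
      simp only [Prod.mk.injEq] at h
      obtain ⟨h1, h2⟩ := h
      subst h1
      subst h2
      rfl), sum_sigma]
    refine sum_congr rfl fun a _ => ?_
    change ∑ _x ∈ XX s K n a, w s K K' a = w s K K' a * ((XX s K n a).card : ℝ)
    rw [sum_const, nsmul_eq_mul, mul_comm]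
  -- choice of multipliers
  have hch : ∀ q ∈ P, ∃ m ∈ R, ∃ j : ℕ, 1 ≤ j ∧ j ≤ s ∧ m = j * (q.1 * q.2) := by
    intro q hq
    rw [hmemP, hXX] at hq
    obtain ⟨h1, ⟨h2, h3⟩, h4, h5⟩ := hq
    have ha := (hApos q.1 h1).1
    obtain ⟨j, j1, j2, j3⟩ := hfree (q.1 * q.2) (by positivity)
    refine ⟨j * (q.1 * q.2), ?_, j, j1, j2, rfl⟩
    rw [hR, mem_sdiff, mem_Icc]
    refine ⟨⟨Nat.one_le_iff_ne_zero.2 (by positivity), ?_⟩, j3⟩
    have h6 : q.2 * (s * q.1) ≤ n := (Nat.le_div_iff_mul_le (by positivity)).1 h3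
    calc j * (q.1 * q.2) ≤ s * (q.1 * q.2) := Nat.mul_le_mul_right _ j2
      _ = q.2 * (s * q.1) := by ring
      _ ≤ n := h6
  have hwP : ∀ q ∈ P, 0 ≤ w s K K' q.1 := fun q hq =>
    w_nonneg hs hK hKK (hApos q.1 ((hmemP q).1 hq).1).1
  have hcount : ∑ q ∈ P, w s K K' q.1 ≤
      ∑ m ∈ R, ∑ q ∈ P.filter (fun q => ∃ j : ℕ, 1 ≤ j ∧ j ≤ s ∧ m = j * (q.1 * q.2)),
        w s K K' q.1 := by
    have h1 : ∑ m ∈ R, ∑ q ∈ P.filter (fun q => ∃ j : ℕ, 1 ≤ j ∧ j ≤ s ∧ m = j * (q.1 * q.2)),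
        w s K K' q.1 = ∑ q ∈ P, ∑ m ∈ R,
          (if (∃ j : ℕ, 1 ≤ j ∧ j ≤ s ∧ m = j * (q.1 * q.2)) then w s K K' q.1 else 0) := by
      rw [sum_comm]
      refine sum_congr rfl fun m _ => ?_
      rw [sum_filter]
    rw [h1]
    refine sum_le_sum fun q hq => ?_
    obtain ⟨m, hm, hj⟩ := hch q hq
    have h2 : (if (∃ j : ℕ, 1 ≤ j ∧ j ≤ s ∧ m = j * (q.1 * q.2)) then w s K K' q.1 else 0) ≤
        ∑ m ∈ R, (if (∃ j : ℕ, 1 ≤ j ∧ j ≤ s ∧ m = j * (q.1 * q.2)) then w s K K' q.1 else 0) :=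
      single_le_sum (f := fun m =>
        (if (∃ j : ℕ, 1 ≤ j ∧ j ≤ s ∧ m = j * (q.1 * q.2)) then w s K K' q.1 else 0))
        (fun m _ => by
          split_ifs
          · exact hwP q hq
          · exact le_rfl) hm
    rwa [if_pos hj] at h2
  have hinner : ∀ m ∈ R,
      ∑ q ∈ P.filter (fun q => ∃ j : ℕ, 1 ≤ j ∧ j ≤ s ∧ m = j * (q.1 * q.2)),
        w s K K' q.1 ≤ 1 := by
    intro m hm
    rw [hR, mem_sdiff, mem_Icc] at hm
    set Q := P.filter (fun q => ∃ j : ℕ, 1 ≤ j ∧ j ≤ s ∧ m = j * (q.1 * q.2)) with hQ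
    rcases Q.eq_empty_or_nonempty with hE | ⟨q₀, hq₀⟩
    · rw [hE]
      simp
    have hQmem : ∀ q ∈ Q, q.1 ∈ A ∧ (1 ≤ q.2 ∧ q.2 ≤ n / (s * q.1)) ∧ Rough s q.2 ∧
        (¬ q.2 ≤ n / (K * (s * q.1))) ∧ ∃ j : ℕ, 1 ≤ j ∧ j ≤ s ∧ m = j * (q.1 * q.2) := by
      intro q hq
      rw [hQ, mem_filter, hmemP, hXX] at hq
      exact ⟨hq.1.1, hq.1.2.1, hq.1.2.2.1, hq.1.2.2.2, hq.2⟩
    have hdvd : ∀ q ∈ Q, ∀ q' ∈ Q, q.2 ∣ q'.2 := by
      intro q hq q' hq'
      obtain ⟨a1, a2, a3, a4, j, a5, a6, a7⟩ := hQmem q hq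
      obtain ⟨b1, b2, b3, b4, j', b5, b6, b7⟩ := hQmem q' hq'
      have h1 : q.2 ∣ (j' * q'.1) * q'.2 := by
        rw [mul_assoc, ← b7, a7]
        exact ⟨j * q.1, by ring⟩
      have hcop : Nat.Coprime q.2 (j' * q'.1) := by
        apply rough_coprime a3
        · have := (hApos q'.1 b1).1
          positivity
        · intro p hp hpd
          rcases (Nat.Prime.dvd_mul hp).1 hpd with h | h
          · exact (Nat.le_of_dvd (by omega) h).trans b6
          · exact (hApos q'.1 b1).2 p hp h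
      exact hcop.dvd_of_dvd_mul_left h1
    have hsame : ∀ q ∈ Q, q.2 = q₀.2 := fun q hq =>
      Nat.dvd_antisymm (hdvd q hq q₀ hq₀) (hdvd q₀ hq₀ q hq)
    obtain ⟨c1, c2, c3, c4, j₀, c5, c6, c7⟩ := hQmem q₀ hq₀
    have hinj : Set.InjOn (fun q : ℕ × ℕ => q.1) (Q : Set (ℕ × ℕ)) := by
      intro q hq q' hq' h
      exact Prod.ext h ((hsame q hq).trans (hsame q' hq').symm)
    have hsimg : ∑ q ∈ Q, w s K K' q.1 = ∑ a ∈ Q.image (fun q => q.1), w s K K' a := by
      rw [sum_image hinj]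
    rw [hsimg]
    apply key s K K' n q₀.2 (j₀ * q₀.1) hs hK hKK (by omega)
      (by have := (hApos q₀.1 c1).1; positivity)
      (by rw [mul_assoc, ← c7]; exact hm.1.2)
    · intro a ha
      obtain ⟨q, hq, rfl⟩ := mem_image.1 ha
      exact (hQmem q hq).1
    · intro a ha
      obtain ⟨q, hq, rfl⟩ := mem_image.1 ha
      obtain ⟨a1, a2, a3, a4, j, a5, a6, a7⟩ := hQmem q hq
      have h1 : (j * q.1) * q₀.2 = (j₀ * q₀.1) * q₀.2 := by
        rw [mul_assoc, mul_assoc, ← c7, a7, hsame q hq]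
      have h2 : j * q.1 = j₀ * q₀.1 := Nat.eq_of_mul_eq_mul_right (by omega) h1
      exact ⟨j, by rw [← h2]; ring⟩
    · intro a ha
      obtain ⟨q, hq, rfl⟩ := mem_image.1 ha
      obtain ⟨a1, a2, a3, a4, -⟩ := hQmem q hq
      have := (hApos q.1 a1).1
      rw [← hsame q hq]
      exact (Nat.le_div_iff_mul_le (by positivity)).1 a2.2
    · intro a ha
      obtain ⟨q, hq, rfl⟩ := mem_image.1 ha
      obtain ⟨a1, a2, a3, a4, -⟩ := hQmem q hq
      have h0 := (hApos q.1 a1).1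
      rw [← hsame q hq]
      by_contra hcon
      exact a4 ((Nat.le_div_iff_mul_le (by positivity)).2 (by omega))
  have htot : ∑ q ∈ P, w s K K' q.1 ≤ R.card := by
    refine hcount.trans ?_
    calc _ ≤ ∑ m ∈ R, (1 : ℝ) := sum_le_sum hinner
      _ = R.card := by simp
  rw [hsumP] at htot
  have hAsum : ∑ a ∈ A, w s K K' a * ((XX s K n a).card : ℝ) =
      ((rho s (n / s) : ℝ) - rho s (n / (K * s))) +
    ∑ p ∈ (Icc K' s).filter Nat.Prime,
      th s K K' p * ((rho s (n / (s * p)) : ℝ) - rho s (n / (K * (s * p)))) := by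
    rw [hA]
    unfold AA
    rw [sum_insert (by
      rw [mem_filter]
      rintro ⟨-, h⟩
      exact Nat.not_prime_one h)]
    congr 1
    · rw [card_XX s K n 1 (by omega)]
      simp [w]
    · refine sum_congr rfl fun p hp => ?_
      rw [card_XX s K n p (by omega)]
      have : p ≠ 1 := by
        rintro rfl
        exact Nat.not_prime_one (mem_filter.1 hp).2
      simp [w, this]
  rw [hAsum] at htot
  rw [hpm]
  linarith

end Pool.Agent.K7.H24.PD
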