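import Mathlib

/-!
# Project PD (helper24): MP_a617e8_nt, sets without `{x, 2x, …, sx}`:
`liminf s log s (1 - λ_s) ≥ (1 + log 2) e^{-γ}`
-/

set_option autoImplicit false

namespace Pool.Agent.K7.H24.PD

open Filter Topology Finset

open Classical in
/-- the largest size `p_s(n)` of a subset of `{1, …, n}` which does not contain `{x, 2x, …, sx}`
for any positive integer `x` -/
noncomputable def pmax (s n : ℕ) : ℕ :=
  ((Icc 1 n).powerset.filter
    (fun S => ∀ x : ℕ, 0 < x → ∃ j : ℕ, 1 ≤ j ∧ j ≤ s ∧ j * x ∉ S)).sup Finset.card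

/-- `λ_s`, the upper limit (which is the limit) of `p_s(n) / n` -/
noncomputable def lam (s : ℕ) : ℝ := limsup (fun n : ℕ => (pmax s n : ℝ) / n) atTop

/-- all prime factors of `r` are greater than `s` -/
def Rough (s r : ℕ) : Prop := ∀ p : ℕ, p.Prime → p ∣ r → s < p

open Classical in
noncomputable def rho (s N : ℕ) : ℕ := ((Icc 1 N).filter (Rough s)).card

noncomputable def V (s : ℕ) : ℝ := ∏ p ∈ (Icc 1 s).filter Nat.Prime, (1 - 1 / (p : ℝ))

/-- the weight of a prime `p` -/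
noncomputable def th (s K K' p : ℕ) : ℝ :=
  (1 - Real.log K / Real.log K') * (Real.log p / (Real.log s + Real.log p))

/-- ROUGH: the density of the numbers prime to all primes up to `s` -/
def StRough : Prop := ∀ s : ℕ, Tendsto (fun N : ℕ => (rho s N : ℝ) / N) atTop (𝓝 (V s))

/-- PACK -/
def StPack : Prop := ∀ s n K K' : ℕ, 2 ≤ s → 2 ≤ K → K < K' →
  (pmax s n : ℝ) ≤ n - (((rho s (n / s) : ℝ) - rho s (n / (K * s))) +
    ∑ p ∈ (Icc K' s).filter Nat.Prime,
      th s K K' p * ((rho s (n / (s * p)) : ℝ) - rho s (n / (K * (s * p)))))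

/-- LIM (from PACK, ROUGH) -/
def StLim : Prop := ∀ s K K' : ℕ, 2 ≤ s → 2 ≤ K → K < K' →
  lam s ≤ 1 - 1 / s * (1 - 1 / (K : ℝ)) * V s *
    (1 + (1 - Real.log K / Real.log K') *
      ∑ p ∈ (Icc K' s).filter Nat.Prime, Real.log p / (p * (Real.log s + Real.log p)))

/-- ASY: the sum tends to `∫_0^1 du / (1 + u) = log 2` -/
def StAsy : Prop := ∀ K' : ℕ, ∀ ε : ℝ, 0 < ε → ∀ᶠ s : ℕ in atTop,
  Real.log 2 - ε ≤
    ∑ p ∈ (Icc K' s).filter Nat.Prime, Real.log p / (p * (Real.log s + Real.log p))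

/-- FINAL (from LIM, ASY) -/
def StFinal : Prop := ∀ c : ℝ, c < (1 + Real.log 2) * Real.exp (-Real.eulerMascheroniConstant) →
  ∀ᶠ s : ℕ in atTop, c ≤ s * Real.log s * (1 - lam s)

end Pool.Agent.K7.H24.PD
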